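import Mathlib
import Pool.Agent.Helper892.QR.Core

/-!
# Vojta's conjecture with `D = 0`, `K_X` ample and any degree bound `d ≥ 2`: dependence on `ε`

`k` is any number field. `S` is the surface of tridegree `(2, 2, e)`, `e ≥ 3`, in `(ℙ¹)³` with the
affine equation
`α x² y² + β x y (x + y) + γ (x² + y² - 1) + δ x y + η (x + y - 1) = 0`,
where `α, …, η` are polynomials in `z` over `k` of degree at most `e` with `α(0) = β(0) = η(0) = 0`,
`γ(0) = 1`, `δ(0) = -3`. The fibres of `z : S → ℙ¹` are curves of genus one; `K_S = O(0, 0, e - 2)`.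
`X` is the cyclic cover `w ^ N = G(x, y, z)` of `S` of degree `N ≥ 2`, where `G` is any polynomial of
tridegree at most `(N a, N b, N c)`, `a, b, c ≥ 1`. For general `α, …, η` and `G` (Bertini) `S` and
`X` are smooth, and `K_X` is the pull-back of `O((N - 1) a, (N - 1) b, (N - 1) c + e - 2)`, which is
ample. `A` is the pull-back of `O(1, 1, 1)`, also ample. The theorem says that the exceptional set
for the points of degree at most `N` depends on `ε`; the points on `X` of degree one should all but
finitely many be on one curve (Bombieri–Lang).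

`X` is generically finite over `ℙ¹ × ℙ¹` by `(y, z)`, so that every closed subset `Z ≠ X` is contained
in the zero set of a polynomial `Γ(y, z) ≠ 0` (and the points at infinity).

Proof. `S` contains the line `x = 1`, `y = 0`; let `R_j` be its images under the automorphism
`(x, y) ↦ (y, x')`, `x'` the second root of the equation as an equation in `x`. For `z = 0` the
second coordinates of `R_0, R_1, …` are `0, -1, -3, -8, …`, so these curves are distinct. They are
sections of `z`, hence `K_S · R_j = e - 2 > 0`. For `P` in `X` over a point of `R_j` over `z` in `k`,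
`d_k(P)` is at most the part of `h_K(P)` which comes from the ramification, and so
`h_K(P) ≥ d_k(P) + (e - 2) h(z) - O(1)`, whereas `h_A(P) ≤ (e j² + 1) h(z) + O(1)`.
-/

set_option autoImplicit false

open NumberField Polynomial

namespace Pool.Agent.Results.MP_9b9442_nt.CyclicCoversEpsilon

variable (k : Type) [Field k] [NumberField k]

/-- The height, relative to `k`, of the point `x` of the line over `L ⊇ k`. -/
noncomputable def height {L : Type} [Field L] [NumberField L] [Algebra k L] (x : L) : ℝ :=
  Height.logHeight₁ x / Module.finrank k L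

/-- The logarithmic discriminant `d_k(L) = log |disc L| / [L : k] - log |disc k|`. -/
noncomputable def logDisc (L : Type) [Field L] [NumberField L] [Algebra k L] : ℝ :=
  Real.log |(discr L : ℝ)| / Module.finrank k L - Real.log |(discr k : ℝ)|

variable {k}

/-- The equation of the surface `S`. -/
def OnSurface {L : Type} [Field L] [Algebra k L] (α β γ δ η : k[X]) (x y z : L) : Prop :=
  aeval z α * x ^ 2 * y ^ 2 + aeval z β * x * y * (x + y) + aeval z γ * (x ^ 2 + y ^ 2 - 1) +
    aeval z δ * x * y + aeval z η * (x + y - 1) = 0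

/-- The inequality `h_K(P) ≤ d_k(P) + ε h_A(P) + B` for all closed points `P = (x, y, z, w)` of
degree at most `N`, with residue field `L`, of the affine part of the cover `w ^ N = G(x, y, z)` of
`S`, outside the zero set of the polynomial `Γ(y, z)` (the outer variable of `Γ` is `y`). Here
`h_K = (N - 1) (a h(x) + b h(y) + c h(z)) + (e - 2) h(z)` and `h_A = h(x) + h(y) + h(z)`. -/
def VojtaInequality (N e a b c : ℕ) (α β γ δ η : k[X]) (G : MvPolynomial (Fin 3) k) (Γ : k[X][X])
    (ε B : ℝ) : Prop :=
  ∀ (L : Type) [Field L] [NumberField L] [Algebra k L] (x y z w : L),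
    OnSurface α β γ δ η x y z → w ^ N = MvPolynomial.aeval ![x, y, z] G →
    IntermediateField.adjoin k {x, y, z, w} = ⊤ → Module.finrank k L ≤ N →
    aevalAeval z y Γ ≠ 0 →
    (N - 1) * (a * height k x + b * height k y + c * height k z) + (e - 2) * height k z ≤
      logDisc k L + ε * (height k x + height k y + height k z) + B

/-- **Vojta's conjecture with `D = 0`, `K_X` ample and points of degree at most `N`, any `N ≥ 2`:
the exceptional set depends on `ε`.** Let `X : w ^ N = G(x, y, z)` be a cyclic cover of the surface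
`S` of tridegree `(2, 2, e)`, `e ≥ 3`, with `G` of tridegree at most `(N a, N b, N c)`. If
`h_K(P) ≤ d_k(P) + ε h_A(P) + B` holds for all points `P` of degree at most `N` of `X` outside the
zero set of the polynomial `Γ(y, z) ≠ 0`, then the degree of `Γ` in `y` is larger than `n` for each
`n` with `ε (e n² + 1) < e - 2`. -/
theorem result (N e a b c : ℕ) (hN : 2 ≤ N) (he : 3 ≤ e) (α β γ δ η : k[X])
    (hα : α.natDegree ≤ e) (hβ : β.natDegree ≤ e) (hγ : γ.natDegree ≤ e) (hδ : δ.natDegree ≤ e)
    (hη : η.natDegree ≤ e) (hα0 : α.eval 0 = 0) (hβ0 : β.eval 0 = 0) (hγ0 : γ.eval 0 = 1)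
    (hδ0 : δ.eval 0 = -3) (hη0 : η.eval 0 = 0) (G : MvPolynomial (Fin 3) k)
    (ha : G.degreeOf 0 ≤ N * a) (hb : G.degreeOf 1 ≤ N * b) (hc : G.degreeOf 2 ≤ N * c)
    (Γ : k[X][X]) (hΓ : Γ ≠ 0) (ε B : ℝ)
    (hV : VojtaInequality N e a b c α β γ δ η G Γ ε B) (n : ℕ)
    (hn : ε * (e * n ^ 2 + 1) < e - 2) : n < Γ.natDegree := by
  have he' : (3 : ℝ) ≤ e := by exact_mod_cast he
  refine Pool.Agent.Helper892.QR.core (by omega : 1 ≤ N) a b c hα hβ hγ hδ hη hα0 hβ0 hγ0 hδ0 hη0 G
    ha hb hc Γ hΓ ε B (e - 2) (by linarith) ?_ n hn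
  intro L _ _ _ x y z w _ hF hw htop hdeg hΓz
  have hG : MvPolynomial.aeval ![algebraMap k L x, algebraMap k L y, algebraMap k L z] G =
      algebraMap k L (MvPolynomial.eval ![x, y, z] G) := by
    have e1 : (![algebraMap k L x, algebraMap k L y, algebraMap k L z] : Fin 3 → L) =
        algebraMap k L ∘ (![x, y, z] : Fin 3 → k) := by
      funext i
      fin_cases i <;> rfl
    rw [e1, MvPolynomial.aeval_algebraMap_apply]
    rfl
  have hev : aevalAeval (algebraMap k L z) (algebraMap k L y) Γ = algebraMap k L (Γ.evalEval z y) := by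
    rw [← coe_aevalAeval_eq_evalEval]
    have h5 : (aevalAeval (R := k) (algebraMap k L z) (algebraMap k L y)) =
        (Algebra.ofId k L).comp (aevalAeval (R := k) z y) := by
      apply (aevalAevalEquiv k L).symm.injective
      simp
    rw [h5]
    rfl
  have h := hV L (algebraMap k L x) (algebraMap k L y) (algebraMap k L z) w (by
    unfold OnSurface
    have h1 := congrArg (algebraMap k L) hF
    unfold Pool.Agent.Helper892.QR.FF at h1
    simp only [aeval_algebraMap_apply_eq_algebraMap_eval]
    simpa using h1) (by rw [hG]; exact hw) (by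
    rw [eq_top_iff, ← htop]
    apply IntermediateField.adjoin.mono
    intro t ht
    rw [Set.mem_singleton_iff] at ht
    rw [ht]
    simp) hdeg (by
    rw [hev]
    rwa [Ne, map_eq_zero])
  have e1 := Pool.Agent.Helper892.VE.lH_eq L x
  have e2 := Pool.Agent.Helper892.VE.lH_eq L y
  have e3 := Pool.Agent.Helper892.VE.lH_eq L z
  have e1' : height k (algebraMap k L x) = Height.logHeight₁ x := e1
  have e2' : height k (algebraMap k L y) = Height.logHeight₁ y := e2
  have e3' : height k (algebraMap k L z) = Height.logHeight₁ z := e3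
  rw [e1', e2', e3'] at h
  have e4 : logDisc k L = Pool.Agent.Helper892.VE.lD k L := rfl
  rw [e4] at h
  linarith

end Pool.Agent.Results.MP_9b9442_nt.CyclicCoversEpsilon
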