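import Mathlib
import Pool.Agent.Helper892.ER.Core
import Pool.Agent.Helper892.VE.Quot

/-!
# Vojta's conjecture with `D = 0` for curves and points of degree at most `N`: the error term

`k` is any number field, `E : y² = x³ + a x + b` an elliptic curve over `k` with `a`, `b` integral,
`N ≥ 2`, `e ≥ 1`, and `C → E` is the cyclic cover `w ^ N = g`, `g = A(x) + B(x) y` with
`deg A ≤ N e - 1`, `deg B ≤ N e - 2` (integral coefficients). If `B` has degree `N e - 2` and if the
norm `A² - (x³ + a x + b) B²`, of degree `2 N e - 1`, has no multiple roots, then `C` is smooth of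
genus `N (N - 1) e + 1`, it is totally ramified over the `2 N e - 1` zeros of `g` and over the origin
of `E`, and `K_C` is `N - 1` times the pull-back of `2 e O`, so that `h_{K_C}(P) = (N - 1) e h(x)`
up to a bounded function.

In Vojta's inequality `h_K(P) ≤ d_k(P) + ε h_A(P) + O(1)` for the points `P` of degree at most `N`
of `C`, how small can the error term be chosen? For rational points, Lang suggested an error term
`(1 + ε) log h_A(P) + O(1)` (or `O(log h_A(P))`). The theorem says: if `E(k)` has rank at least `r`,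
then there are infinitely many points `P` of degree at most `N` on `C` with
`h_K(P) ≥ d_k(P) + (1 - 1 / N) (r / 2) log h_K(P) - O(1)`. So the error term cannot be
`κ log h_K(P) + O(1)` if `κ < (1 - 1 / N) (r / 2)`; the rank of `E` over the finite extensions of `k`
is unbounded.

Proof. By the pigeonhole principle there are points `Q` in `E(k)` with `h(x(Q)) ≤ T` whose distance
from the origin at a fixed prime `p` is at most `O(T ^ (- r / 2))`. The origin is a branch point of
`C → E`; so `p` contributes `(1 - 1 / N) (r / 2) log T` to the height `h_K(P)` for `P` over `Q`, but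
only `O(1)` to `d_k(P)`.
-/

set_option autoImplicit false

open NumberField Polynomial

namespace Pool.Agent.Results.MP_9b9442_nt.ErrorTermRank

variable (k : Type) [Field k] [NumberField k]

/-- The height, relative to `k`, of the point `x` of the line over `L ⊇ k`. -/
noncomputable def height {L : Type} [Field L] [NumberField L] [Algebra k L] (x : L) : ℝ :=
  Height.logHeight₁ x / Module.finrank k L

/-- The logarithmic discriminant `d_k(L) = log |disc L| / [L : k] - log |disc k|`. -/
noncomputable def logDisc (L : Type) [Field L] [NumberField L] [Algebra k L] : ℝ :=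
  Real.log |(discr L : ℝ)| / Module.finrank k L - Real.log |(discr k : ℝ)|

variable {k}

/-- The curve `E : y² = x³ + a x + b`. -/
def ellipticCurve (a b : 𝓞 k) : WeierstrassCurve k := ⟨0, 0, 0, a, b⟩

/-- `(x, y, w)` is a point over `L` of the affine part of the curve `C`, that is
`y² = x³ + a x + b`, `w ^ N = A(x) + B(x) y`. -/
def OnCurve {L : Type} [Field L] [Algebra k L] (N : ℕ) (a b : 𝓞 k) (A B : (𝓞 k)[X]) (x y w : L) :
    Prop :=
  y ^ 2 = x ^ 3 + algebraMap k L a * x + algebraMap k L b ∧
  w ^ N = aeval x (A.map (algebraMap (𝓞 k) k)) + aeval x (B.map (algebraMap (𝓞 k) k)) * y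

lemma norm_ne {a b : 𝓞 k} {A B : (𝓞 k)[X]} (hAB : A ≠ 0 ∨ B ≠ 0) :
    A ^ 2 ≠ (X ^ 3 + C a * X + C b) * B ^ 2 := by
  intro h
  have hcub : (X ^ 3 + C a * X + C b : (𝓞 k)[X]).natDegree = 3 := by compute_degree!
  have hcub0 : (X ^ 3 + C a * X + C b : (𝓞 k)[X]) ≠ 0 := by
    intro h0
    rw [h0, natDegree_zero] at hcub
    omega
  by_cases hB : B = 0
  · rw [hB, zero_pow two_ne_zero, mul_zero] at h
    exact hAB.elim (fun h1 => h1 (pow_eq_zero_iff two_ne_zero |>.1 h)) (fun h1 => h1 hB)
  · have h1 := congrArg natDegree h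
    rw [natDegree_mul hcub0 (pow_ne_zero _ hB), natDegree_pow, natDegree_pow, hcub] at h1
    omega

/-- **Vojta's conjecture with `D = 0` for the points of degree at most `N` of curves: the error
term.** Let `E : y² = x³ + a x + b` be an elliptic curve over the number field `k` and `C` the cyclic
cover `w ^ N = A(x) + B(x) y` of degree `N ≥ 2` of `E`, with `deg A ≤ N e - 1`, `deg B ≤ N e - 2`,
`(A, B) ≠ (0, 0)`. If `E(k)` contains `r ≥ 1` independent points, then for some `c` there are closed
points `P` of degree at most `N` on `C`, of arbitrarily large height, with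
`h_K(P) ≥ d_k(P) + (1 - 1 / N) (r / 2) log h_K(P) - c`, where `h_K(P) = (N - 1) e h(x)`. -/
theorem result (N e : ℕ) (hN : 2 ≤ N) (he : 1 ≤ e) (a b : 𝓞 k) (hab : 4 * a ^ 3 + 27 * b ^ 2 ≠ 0)
    (A B : (𝓞 k)[X]) (hA : A.natDegree ≤ N * e - 1) (hB : B.natDegree ≤ N * e - 2)
    (hAB : A ≠ 0 ∨ B ≠ 0) [DecidableEq k] (r : ℕ) (hr : 1 ≤ r)
    (P : Fin r → (ellipticCurve a b).toAffine.Point) (hP : LinearIndependent ℤ P) :
    ∃ c : ℝ, ∀ T : ℝ, ∃ (L : Type) (_ : Field L) (_ : NumberField L) (_ : Algebra k L)
      (x y w : L), OnCurve N a b A B x y w ∧ IntermediateField.adjoin k {x, y, w} = ⊤ ∧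
      Module.finrank k L ≤ N ∧ T < height k x ∧
      logDisc k L + (1 - 1 / N) * (r / 2) * Real.log ((N - 1) * e * height k x) - c ≤
        (N - 1) * e * height k x := by
  obtain ⟨p, hp⟩ := Pool.Agent.Helper892.ER.exists_prime_notMem (2 * (4 * a ^ 3 + 27 * b ^ 2))
    (mul_ne_zero two_ne_zero hab)
  have hNr : (2 : ℝ) ≤ N := by exact_mod_cast hN
  have her : (1 : ℝ) ≤ e := by exact_mod_cast he
  obtain ⟨c, hc⟩ := Pool.Agent.Helper892.ER.core p a b hp A B (N := N) (e := e) (by omega)
    (by nlinarith) hA hB (norm_ne hAB) hr P hP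
  refine ⟨c + (1 - 1 / N) * (r / 2) * Real.log ((N - 1) * e) + (1 - 1 / N) * c, fun T => ?_⟩
  obtain ⟨x, y, L, iF, iN, iA, w, hxy, hw, htop, hdeg, hT, -, h1, h2⟩ := hc (max T 0)
  have hT1 := (le_max_left T 0).trans_lt hT
  have hT2 := (le_max_right T 0).trans_lt hT
  have e1 : height k (algebraMap k L x) = Height.logHeight₁ x :=
    Pool.Agent.Helper892.VE.lH_eq L x
  refine ⟨L, iF, iN, iA, algebraMap k L x, algebraMap k L y, w, ⟨?_, ?_⟩, ?_, hdeg, ?_, ?_⟩
  · rw [← map_pow, hxy, map_add, map_add, map_mul, map_pow]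
  · rw [hw]
    simp only [aeval_algebraMap_apply, map_add, map_mul]
    have e2 : ∀ Φ : (𝓞 k)[X], aeval x (Φ.map (algebraMap (𝓞 k) k)) = aeval x Φ := fun Φ => by
      rw [aeval_map_algebraMap]
    rw [e2, e2]
  · rw [eq_top_iff, ← htop]
    apply IntermediateField.adjoin.mono
    intro t ht
    rw [Set.mem_singleton_iff] at ht
    rw [ht]
    simp
  · rw [e1]
    exact hT1
  · rw [e1]
    have e3 : logDisc k L = Pool.Agent.Helper892.VE.lD k L := rfl
    have h0 : (0 : ℝ) < (N - 1) * e := mul_pos (by linarith) (by linarith)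
    rw [e3, Real.log_mul h0.ne' hT2.ne']
    have e4 : ((N - 1) / N : ℝ) = 1 - 1 / N := by
      field_simp
    have h3 : (0 : ℝ) ≤ 1 - 1 / N := by
      rw [← e4]
      exact div_nonneg (by linarith) (by linarith)
    have h4 := mul_le_mul_of_nonneg_left h2 h3
    rw [e4] at h1
    linarith


end Pool.Agent.Results.MP_9b9442_nt.ErrorTermRank
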