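import Mathlib
import Pool.Agent.Helper892.VE.Quot
import Pool.Agent.Helper892.VE.Sep

/-!
# Quadratic points of quotients of products of hyperelliptic curves: the exceptional set depends on `ε`

`k` is any number field, `C : y² = F(x)` a hyperelliptic curve over `k` with `F = f g`,
`f = x³ + a x² + b x + c`, `deg g = 2 m ≥ 2`, `a, b, c` and the coefficients of `g` integral, `F`
without multiple roots; its genus is `m + 1`. (Up to isomorphism these are all hyperelliptic curves
of genus at least two for which one Weierstrass point is `k`-rational and three others form a set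
which is defined over `k`.) Let `ι` be the hyperelliptic involution and `X` the minimal resolution of
the surface `(C × C) / (ι, ι)`, that is of the double cover `y² = F(x_0) F(x_1)` of `ℙ¹ × ℙ¹`, which
has `(2 m + 4)²` nodes. `X` is a minimal surface of general type, with `K_X` the pull-back of
`O(m, m)`. So `h_{K_X}(P) = m (h(x_0) + h(x_1)) + O(1)`, and we take for `A` the pull-back of
`O(1, 1)`, which is nef and big.

The closed points of `X` with `y ≠ 0` (and `x_0`, `x_1` finite) are given by number fields `L ⊇ k`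
and `x_0, x_1, y ∈ L` which generate `L`. Each closed subset `Z ≠ X` is contained in the union of the
zero set of a polynomial `G(x_0, x_1) ≠ 0`, the curve `y = 0` and the curves at infinity.

Proof. Let `D(x)` be the duplication map of `E : y² = f(x)`, so that `f(D(x)) = f(x) s(x)²`. We take
the points with `x_1 = D^n(x_0)`, `x_0` in `k`; then `y² = F(x_0) F(x_1)` is `g(x_0) g(x_1)` up to a
square. Moreover, let `x_0 = t - g(t) / g'(t)` with an integer `t`: the numerator of `g(x_0)` is
divisible by `g(t)²`, hence `d(P) ≤ (m - 1) h(x_0) + m h(x_1) + O(1) = h_{K_X}(P) - h(x_0) + O(1)`. As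
`h(x_1) = 4 ^ n h(x_0) + O(1)`, the curve `x_1 = D^n(x_0)` is in the exceptional set as soon as
`ε < 1 / (4 ^ n + 1)`.
-/

set_option autoImplicit false

open NumberField Polynomial

namespace Pool.Agent.Results.MP_9b9442_nt.QuadraticPointsEpsilon

variable (k : Type) [Field k] [NumberField k]

/-- The height, relative to `k`, of the point `x` of the line over `L ⊇ k`. -/
noncomputable def height {L : Type} [Field L] [NumberField L] [Algebra k L] (x : L) : ℝ :=
  Height.logHeight₁ x / Module.finrank k L

/-- The logarithmic discriminant `d_k(L) = log |disc L| / [L : k] - log |disc k|`. -/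
noncomputable def logDisc (L : Type) [Field L] [NumberField L] [Algebra k L] : ℝ :=
  Real.log |(discr L : ℝ)| / Module.finrank k L - Real.log |(discr k : ℝ)|

variable {k}

/-- The inequality `m (h(x_0) + h(x_1)) ≤ κ d_k(P) + ε (h(x_0) + h(x_1)) + B` for all closed points
`P = (x_0, x_1, y)` of degree at most `2`, with residue field `L`, of the surface `y² = F(x_0) F(x_1)`,
outside `y = 0` and outside the zero set of the polynomial `G(x_0, x_1)`. -/
def VojtaInequality (F : (𝓞 k)[X]) (m : ℕ) (G : k[X][X]) (κ ε B : ℝ) : Prop :=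
  ∀ (L : Type) [Field L] [NumberField L] [Algebra k L] (x : Fin 2 → L) (y : L),
    y ^ 2 = aeval (x 0) (F.map (algebraMap (𝓞 k) k)) * aeval (x 1) (F.map (algebraMap (𝓞 k) k)) →
    y ≠ 0 → IntermediateField.adjoin k {x 0, x 1, y} = ⊤ → Module.finrank k L ≤ 2 →
    aevalAeval (x 0) (x 1) G ≠ 0 →
    m * ∑ i, height k (x i) ≤ κ * logDisc k L + ε * ∑ i, height k (x i) + B

/-- **Vojta's conjecture with `D = 0` for quadratic points: the exceptional set depends on `ε`.**
Let `f = x³ + a x² + b x + c`, `deg g = 2 m ≥ 2`, `F = f g` with integral coefficients in the number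
field `k`, without multiple roots, and let `G(x_0, x_1) ≠ 0` be a polynomial over `k` (the outer
variable of `G` is `x_1`). If
`m (h(x_0) + h(x_1)) ≤ κ d_k(P) + ε (h(x_0) + h(x_1)) + B` holds for all points `P` of degree at most
`2` of the surface `y² = F(x_0) F(x_1)`, `y ≠ 0`, outside the zero set of `G`, then the degree of `G`
in each of the two variables is at least `4 ^ n` for each `n` with
`κ (m - 1 + m 4 ^ n) < (m - ε) (4 ^ n + 1)`; for `κ = 1` this means `ε < 1 / (4 ^ n + 1)`. -/
theorem result (a b c : 𝓞 k) (g : (𝓞 k)[X]) (m : ℕ) (hm : 1 ≤ m) (hg : g.natDegree = 2 * m)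
    (hF : Squarefree (((X ^ 3 + C a * X ^ 2 + C b * X + C c) * g).map (algebraMap (𝓞 k) k)))
    (G : k[X][X]) (hG : G ≠ 0) (κ ε B : ℝ) (hκ : 0 ≤ κ)
    (hV : VojtaInequality ((X ^ 3 + C a * X ^ 2 + C b * X + C c) * g) m G κ ε B)
    (n : ℕ) (hn : κ * (m - 1 + m * 4 ^ n) < (m - ε) * (4 ^ n + 1)) :
    (∃ i, 4 ^ n ≤ (G.coeff i).natDegree) ∧ 4 ^ n ≤ G.natDegree := by
  rw [Polynomial.map_mul] at hF
  have hf : Squarefree (X ^ 3 + C (a : k) * X ^ 2 + C (b : k) * X + C (c : k) : k[X]) := by
    refine hF.squarefree_of_dvd (Dvd.dvd.mul_right (dvd_of_eq ?_) _)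
    simp only [Polynomial.map_add, Polynomial.map_mul, Polynomial.map_pow, map_X, map_C]
  have hg2 : Squarefree (g.map (algebraMap (𝓞 k) k)) :=
    hF.squarefree_of_dvd (dvd_mul_left _ _)
  have hsep : (g.map (algebraMap (𝓞 k) k)).Separable := PerfectField.separable_iff_squarefree.2 hg2
  exact Pool.Agent.Helper892.VE.mainQ a b c (Pool.Agent.Helper892.VE.dsc_ne_zero _ _ _ hf) g m hm hg
    hsep G hG κ ε B hκ (fun L _ _ _ x y h1 h2 h3 h4 h5 => hV L x y h1 h2 h3 h4 h5) n hn

end Pool.Agent.Results.MP_9b9442_nt.QuadraticPointsEpsilon
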