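import Mathlib
import Pool.Agent.Helper892.VE.CxC

/-!
# Vojta's conjecture with `D = 0` and ample canonical divisor: the exceptional set depends on `ε`

`k` is any number field, `E : y² = x³ + a x² + b x + c` an elliptic curve over `k` with infinitely
many rational points, `a, b, c` integral, `C` the smooth plane quartic `u⁴ = x³ + a x² + b x + c`
(`u⁴ = x³ z + …` in homogeneous coordinates, with one point at infinity; genus `3`), and `X` the
smooth surface `C × C`. A canonical divisor of `X` is `O(1, 1)` for `C × C ⊂ ℙ² × ℙ²`; it is very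
ample. So `h_{K_X}(P) = h(x_0 : u_0 : 1) + h(x_1 : u_1 : 1) + O(1)`, and we also take `A = K_X`.

`X` is finite over `ℙ¹ × ℙ¹` by `(x_0, x_1)`, so that every closed subset `Z ≠ X` is contained in the
zero set of a polynomial `G(x_0, x_1) ≠ 0` (and the points at infinity).

Proof. The map `C → E`, `y = u²`, is a double cover, ramified at `O` and the three points of
order two. For `Q` in `E(k)` with abscissa `x` of large height, and `n ≥ 0`, we take the points over
`(Q, 2^n Q)`. Their residue field is `k(√y(Q), √y(2^n Q))`, and as `y(2 Q) = W(x) / (8 y(Q)³)` with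
a polynomial `W` of degree six, `y(Q) y(2^n Q)` is, up to a square, a product of values of a form of
degree six at `x(2^i Q)`, `i < n`. This gives `d(P) ≤ 4 ^ n h(x) + O(1)` (without this relation between
the two square roots one would only get `(4 ^ n + 1) h(x)`), whereas
`h_{K_X}(P) ≥ (4 ^ n + 1) h(x) - O(1)`. So for `ε < 1 / (4 ^ n + 1)` the curve of these points is
contained in the exceptional set; its projection to `ℙ¹ × ℙ¹` has bidegree `(4 ^ n, 1)`.
-/

set_option autoImplicit false

open NumberField Polynomial

namespace Pool.Agent.Results.MP_9b9442_nt.SetDependsOnEpsilon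

variable (k : Type) [Field k] [NumberField k]

/-- The height, relative to `k`, of the point `(x : u : 1)` of the plane over `L ⊇ k`
(`Height.logHeight` is the height over `L`, not divided by the degree). -/
noncomputable def height {L : Type} [Field L] [NumberField L] [Algebra k L] (x u : L) : ℝ :=
  Height.logHeight ![x, u, 1] / Module.finrank k L

/-- The logarithmic discriminant `d_k(L) = log |disc L| / [L : k] - log |disc k|`. -/
noncomputable def logDisc (L : Type) [Field L] [NumberField L] [Algebra k L] : ℝ :=
  Real.log |(discr L : ℝ)| / Module.finrank k L - Real.log |(discr k : ℝ)|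

variable {k}

/-- The inequality `h_K(P) ≤ κ d_k(P) + ε h_K(P) + B` for all closed points `P = ((x_0, u_0), (x_1, u_1))`
of degree at most `4` of the affine part of `C × C`, with residue field `L`, outside the zero set of
the polynomial `G(x_0, x_1)`. -/
def VojtaInequality (a b c : 𝓞 k) (G : k[X][X]) (κ ε B : ℝ) : Prop :=
  ∀ (L : Type) [Field L] [NumberField L] [Algebra k L] (x u : Fin 2 → L),
    (∀ i, u i ^ 4 = x i ^ 3 + algebraMap k L a * x i ^ 2 + algebraMap k L b * x i +
      algebraMap k L c) →
    IntermediateField.adjoin k {x 0, x 1, u 0, u 1} = ⊤ → Module.finrank k L ≤ 4 →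
    aevalAeval (x 0) (x 1) G ≠ 0 →
    ∑ i, height k (x i) (u i) ≤ κ * logDisc k L + ε * ∑ i, height k (x i) (u i) + B

/-- **Vojta's conjecture with `D = 0`, `K_X` ample and points of degree at most `4`: the exceptional
set depends on `ε`.** Let `E : y² = x³ + a x² + b x + c` be an elliptic curve over the number field
`k` (discriminant `≠ 0`) with infinitely many rational points, `C : u⁴ = x³ + a x² + b x + c` and
`G(x_0, x_1) ≠ 0` a polynomial over `k` (the outer variable of `G` is `x_1`). If the inequality
`h_K(P) ≤ κ d_k(P) + ε h_K(P) + B` holds for all points `P` of degree at most `4` of `C × C` outside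
the zero set of `G`, then the degree of `G` in each of the two variables is at least `4 ^ n` for each
`n` with `κ 4 ^ n < (1 - ε) (4 ^ n + 1)`; for `κ = 1` this means `ε < 1 / (4 ^ n + 1)`. -/
theorem result (a b c : 𝓞 k)
    (hdisc : (a : k) ^ 2 * b ^ 2 - 4 * b ^ 3 - 4 * a ^ 3 * c - 27 * c ^ 2 + 18 * a * b * c ≠ 0)
    (hE : {P : k × k | P.2 ^ 2 = P.1 ^ 3 + a * P.1 ^ 2 + b * P.1 + c}.Infinite)
    (G : k[X][X]) (hG : G ≠ 0) (κ ε B : ℝ) (hκ : 0 ≤ κ) (hV : VojtaInequality a b c G κ ε B)
    (n : ℕ) (hn : κ * 4 ^ n < (1 - ε) * (4 ^ n + 1)) :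
    (∃ i, 4 ^ n ≤ (G.coeff i).natDegree) ∧ 4 ^ n ≤ G.natDegree := by
  exact Pool.Agent.Helper892.VE.main a b c hdisc hE G hG κ ε B hκ
    (fun L _ _ _ x u h1 h2 h3 h4 => hV L x u h1 h2 h3 h4) n hn

end Pool.Agent.Results.MP_9b9442_nt.SetDependsOnEpsilon
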